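import Pool.Agent.R616.DI.Cone

/-!
# Uniform representatives of c.e. operators with bounded non-uniformity

`W r X` is the set c.e. in `X` with index `r`, `J X` is the jump of `X`, `le Y X` is Turing
reducibility `Y ≤_T X`, `ch P` is the characteristic function of `P`, and `Red c X Y` says that the
program `c` reduces `Y` to `X` (all in `Pool/Agent/H639/LU/Defs.lean`). `rea l X` (in
`Pool/Agent/R616/DI/Rea.lean`) is the `n`-REA operator of a list `l = [r₁, …, rₙ]` of programs:
`rea [] X = X` and `rea (r :: l) X = rea l (X ⊕ W_r^X)`.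

Steel's question is whether every Turing invariant function is equivalent, on a cone, to a uniformly
invariant one. Call `f` boundedly invariant on a cone if there are `k` and a function `u`, arbitrary,
with values sets of at most `k` programs, such that, for the `X` in the cone, whenever `X ≡_T Y` via
the programs `(i, j)`, some program of `u i j` reduces `f Y` to `f X`. Uniform invariance is the
case `k = 1`.

1. If `f X = W_r^X` is boundedly invariant on a cone and above the identity there, then it is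
   equivalent on a cone to the identity or to the jump; both are uniformly invariant on all oracles.
2. If an `n`-REA operator is boundedly invariant on a cone, then it is equivalent to the identity on
   a cone, or it is above the jump on a cone.
3. Let `D` be a c.e. operator, with `D X` not computable in `X` on a cone. Every operation `f` on
   oracles, definable or not, which is boundedly invariant on a cone and for which a fixed finite
   list of programs contains for each `X` in the cone a reduction of `X ⊕ D X` to `f X`, is above the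
   jump on a cone.

No determinacy is used.
-/

set_option autoImplicit false

namespace Pool.Agent.Results.MP_8387fc_lc.BoundedCEOperators

open Nat.Partrec (Code)
open Encodable
open Pool.Agent.H639.LU Pool.Agent.H869R3.FN Pool.Agent.Y579.PP Pool.Agent.R616.DI

/-- `f` is boundedly invariant on the cone above `z`, with `k` candidates -/
def Bounded (k : ℕ) (z : ℕ → Bool) (f : (ℕ → Bool) → ℕ → Bool) : Prop :=
  ∃ u : Code → Code → Finset Code, (∀ i j, (u i j).card ≤ k) ∧
    ∀ X, le z X → ∀ (i j : Code) (Y : ℕ → Bool), Red i X Y → Red j Y X →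
      ∃ l ∈ u i j, Red l (f X) (f Y)

/-- `f` is uniformly Turing invariant -/
def Uniform (f : (ℕ → Bool) → ℕ → Bool) : Prop :=
  ∃ u : Code → Code → Code × Code, ∀ (X Y : ℕ → Bool) (i j : Code), Red i X Y → Red j Y X →
    Red (u i j).1 (f X) (f Y) ∧ Red (u i j).2 (f Y) (f X)

/-- `f ≤ g` on a cone -/
def Below (f g : (ℕ → Bool) → ℕ → Bool) : Prop := ∃ z, ∀ X, le z X → le (f X) (g X)

theorem uniform_id : Uniform (fun X => X) :=
  ⟨fun i j => (i, j), fun _ _ _ _ h h' => ⟨h, h'⟩⟩

theorem uniform_jump : Uniform (fun X => ch (J X)) := by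
  choose l hl using jump_unif
  exact ⟨fun i j => (l i, l j), fun X Y i j h h' => ⟨hl i X Y h, hl j Y X h'⟩⟩

theorem inv_of {k : ℕ} {z₀ : ℕ → Bool} {f : (ℕ → Bool) → ℕ → Bool} (h : Bounded k z₀ f) :
    ∀ X, le z₀ X → ∀ Y, le X Y → le Y X → le (f Y) (f X) := by
  obtain ⟨u, -, hu⟩ := h
  intro X hX Y h1 h2
  obtain ⟨j, hj⟩ := (le_iff _ _).1 h1
  obtain ⟨i, hi⟩ := (le_iff _ _).1 h2
  obtain ⟨l, -, hl⟩ := hu X hX i j Y hi hj
  exact (le_iff _ _).2 ⟨l, hl⟩

theorem ce (r : Code) (k : ℕ) (z₀ : ℕ → Bool) (hb : Bounded k z₀ fun X => ch (W r X))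
    (ha : ∀ X, le z₀ X → le X (ch (W r X))) :
    Below (fun X => ch (W r X)) (fun X => X) ∨
      Below (fun X => ch (J X)) (fun X => ch (W r X)) := by
  obtain ⟨u, hu, hinv⟩ := id hb
  rcases nt_or r Set.univ with hN | ⟨F₁, -, g2, g3, c, hc⟩
  · right
    obtain ⟨d, hd⟩ := exists_id
    obtain ⟨z, hz⟩ := above (fun _ h => h) Pool.Agent.R616.DI.clo_univ cof_univ hN
        (fun X => ch (W r X)) {d} z₀
        (fun X _ hz => ha X hz) (fun X _ _ => ⟨d, Finset.mem_singleton_self _, hd _⟩)
        k u hu z₀ (fun X _ hz i j Y _ hi hj => hinv X hz i j Y hi hj)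
    exact ⟨z, fun X hX => hz X trivial hX⟩
  · left
    exact cone_triv g2 g3 (fun X => ch (W r X)) z₀ (inv_of hb)
      (fun Y hY => (le_iff _ _).2 ⟨c, hc Y hY⟩)

theorem result :
    -- 1. c.e. operators
    (∀ (r : Code) (k : ℕ) (z₀ : ℕ → Bool), Bounded k z₀ (fun X => ch (W r X)) →
      Below (fun X => X) (fun X => ch (W r X)) →
      ∃ g : (ℕ → Bool) → ℕ → Bool, Uniform g ∧ (g = (fun X => X) ∨ g = fun X => ch (J X)) ∧
        Below g (fun X => ch (W r X)) ∧ Below (fun X => ch (W r X)) g) ∧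
    -- 2. REA operators
    (∀ (l : List Code) (k : ℕ) (z₀ : ℕ → Bool), Bounded k z₀ (rea l) →
      Below (fun X => X) (rea l) ∧
        (Below (rea l) (fun X => X) ∨ Below (fun X => ch (J X)) (rea l))) ∧
    -- 3. arbitrary operations above a nontrivial c.e. operator
    (∀ (r : Code) (k : ℕ) (z₀ : ℕ → Bool) (f : (ℕ → Bool) → ℕ → Bool) (D : Finset Code),
      Bounded k z₀ f → (∀ X, le z₀ X → ¬ le (ch (W r X)) X) →
      (∀ X, le z₀ X → ∃ d ∈ D, Red d (f X) (jn 0 X (ch (W r X)))) →
      Below (fun X => ch (J X)) f) := by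
  refine ⟨?_, ?_, ?_⟩
  · intro r k z₀ hb ⟨z₁, hz₁⟩
    obtain ⟨z₂, h2a, h2b⟩ := join2 z₀ z₁
    obtain ⟨u, hu, hinv⟩ := id hb
    have hb' : Bounded k z₂ (fun X => ch (W r X)) :=
      ⟨u, hu, fun X hX => hinv X (le_trans' h2a hX)⟩
    have ha : ∀ X, le z₂ X → le X (ch (W r X)) := fun X hX => hz₁ X (le_trans' h2b hX)
    rcases ce r k z₂ hb' ha with h | h
    · exact ⟨_, uniform_id, Or.inl rfl, ⟨z₁, hz₁⟩, h⟩
    · exact ⟨_, uniform_jump, Or.inr rfl, h, ⟨z₁, fun X _ => w_le_jump r X⟩⟩
  · intro l k z₀ hb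
    obtain ⟨u, hu, hinv⟩ := id hb
    obtain ⟨b, hb₀⟩ := rea_back l
    refine ⟨⟨z₀, fun X _ => (le_iff _ _).2 ⟨b, hb₀ X⟩⟩, ?_⟩
    rcases rea_dich l Set.univ Pool.Agent.R616.DI.clo_univ cof_univ k u hu z₀
      (fun X _ hz i j Y _ hi hj => hinv X hz i j Y hi hj) with ⟨F₁, -, g2, g3, c, hc⟩ | ⟨z, hz⟩
    · left
      exact cone_triv g2 g3 (rea l) z₀ (inv_of hb) (fun Y hY => (le_iff _ _).2 ⟨c, hc Y hY⟩)
    · right
      exact ⟨z, fun X hX => hz X trivial hX⟩
  · intro r k z₀ f D hb hn hD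
    obtain ⟨u, hu, hinv⟩ := id hb
    obtain ⟨κ, -, hκ'⟩ := K7
    obtain ⟨p, hp⟩ := red_fst
    obtain ⟨q, hq⟩ := red_snd
    classical
    obtain ⟨z, hz⟩ := above (fun _ h => h) Pool.Agent.R616.DI.clo_univ cof_univ
      (nt_of (z₀ := z₀) (fun X _ hX => hn X hX)) f (D.image fun d => κ (d, q)) z₀
      (fun X _ hX => by
        obtain ⟨d, -, hd⟩ := hD X hX
        exact (le_iff _ _).2 ⟨κ (d, p), hκ' _ _ _ _ _ hd (hp _ _)⟩)
      (fun X _ hX => by
        obtain ⟨d, hdD, hd⟩ := hD X hX
        exact ⟨_, Finset.mem_image.2 ⟨d, hdD, rfl⟩, hκ' _ _ _ _ _ hd (hq _ _)⟩)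
      k u hu z₀ (fun X _ hX i j Y _ hi hj => hinv X hX i j Y hi hj)
    exact ⟨z, fun X hX => hz X trivial hX⟩

end Pool.Agent.Results.MP_8387fc_lc.BoundedCEOperators
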